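import Pool.Agent.J6H93.NG.G9.F0
import Pool.Agent.J6H93.NG.G9.F1
import Pool.Agent.J6H93.NG.G9.F2
import Pool.Agent.J6H93.NG.G9.F3
import Pool.Agent.J6H93.NG.G9.F4
import Pool.Agent.J6H93.NG.G9.F5
import Pool.Agent.J6H93.NG.G9.F6
import Pool.Agent.J6H93.NG.G9.F7
import Pool.Agent.J6H93.NG.G9.F8
import Pool.Agent.J6H93.NG.G9.F9
import Pool.Agent.J6H93.NG.G9.F10
import Pool.Agent.J6H93.NG.G9.F11
import Pool.Agent.J6H93.NG.G9.F12
import Pool.Agent.J6H93.NG.G9.F13
import Pool.Agent.J6H93.NG.G9.F14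
import Pool.Agent.J6H93.NG.G9.F15
import Pool.Agent.J6H93.NG.G9.F16
import Pool.Agent.J6H93.NG.G9.F17
import Pool.Agent.J6H93.NG.G9.F18
import Pool.Agent.J6H93.NG.G9.F19
import Pool.Agent.J6H93.NG.G9.F20
import Pool.Agent.J6H93.NG.G9.F21
import Pool.Agent.J6H93.NG.G9.F22
import Pool.Agent.J6H93.NG.G9.F23
import Pool.Agent.J6H93.NG.G9.F24
import Pool.Agent.J6H93.NG.G9.F25
import Pool.Agent.J6H93.NG.G9.F26
import Pool.Agent.J6H93.NG.G9.F27
import Pool.Agent.J6H93.NG.G9.F28
import Pool.Agent.J6H93.NG.G9.F29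
import Pool.Agent.J6H93.NG.G9.F30
import Pool.Agent.J6H93.NG.G9.F31
import Pool.Agent.J6H93.NG.G9.F32
import Pool.Agent.J6H93.NG.G9.F33
import Pool.Agent.J6H93.NG.G9.F34
import Pool.Agent.J6H93.NG.G9.F35
import Pool.Agent.J6H93.NG.G9.F36
import Pool.Agent.J6H93.NG.G9.F37
import Pool.Agent.J6H93.NG.G9.F38
import Pool.Agent.J6H93.NG.G9.F39
import Pool.Agent.J6H93.NG.G9.F40
import Pool.Agent.J6H93.NG.G9.F41
import Pool.Agent.J6H93.NG.G9.F42
import Pool.Agent.J6H93.NG.G9.F43
import Pool.Agent.J6H93.NG.G9.F44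
import Pool.Agent.J6H93.NG.G9.F45
import Pool.Agent.J6H93.NG.G9.F46
import Pool.Agent.J6H93.NG.G9.F47
import Pool.Agent.J6H93.NG.G9.F48
import Pool.Agent.J6H93.NG.G9.F49
import Pool.Agent.J6H93.NG.G9.F50

/-! Certificate data (G9): conclusion -/

set_option autoImplicit false

namespace Pool.Agent.J6H93.NG.G9

open Pool.Agent.J6H93.NG

theorem all : RW 14 4 1 := by
  have h1 := F0.all (fun m hm => absurd hm (Nat.not_lt_zero m))
  have h2 := F1.all h1
  have h3 := F2.all h2
  have h4 := F3.all h3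
  have h5 := F4.all h4
  have h6 := F5.all h5
  have h7 := F6.all h6
  have h8 := F7.all h7
  have h9 := F8.all h8
  have h10 := F9.all h9
  have h11 := F10.all h10
  have h12 := F11.all h11
  have h13 := F12.all h12
  have h14 := F13.all h13
  have h15 := F14.all h14
  have h16 := F15.all h15
  have h17 := F16.all h16
  have h18 := F17.all h17
  have h19 := F18.all h18
  have h20 := F19.all h19
  have h21 := F20.all h20
  have h22 := F21.all h21
  have h23 := F22.all h22
  have h24 := F23.all h23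
  have h25 := F24.all h24
  have h26 := F25.all h25
  have h27 := F26.all h26
  have h28 := F27.all h27
  have h29 := F28.all h28
  have h30 := F29.all h29
  have h31 := F30.all h30
  have h32 := F31.all h31
  have h33 := F32.all h32
  have h34 := F33.all h33
  have h35 := F34.all h34
  have h36 := F35.all h35
  have h37 := F36.all h36
  have h38 := F37.all h37
  have h39 := F38.all h38
  have h40 := F39.all h39
  have h41 := F40.all h40
  have h42 := F41.all h41
  have h43 := F42.all h42
  have h44 := F43.all h43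
  have h45 := F44.all h44
  have h46 := F45.all h45
  have h47 := F46.all h46
  have h48 := F47.all h47
  have h49 := F48.all h48
  have h50 := F49.all h49
  have h51 := F50.all h50
  exact h51 34368 (by norm_num)

end Pool.Agent.J6H93.NG.G9
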